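import Pool.Agent.K3h19.MT.Stm
import Pool.Agent.K3h91.ST.Inf

/-!
# Multiquadratic towers: the number theoretic step
-/

set_option autoImplicit false

namespace Pool.Agent.K3h91.MT

open Pool.Agent.R384

theorem t_TOW : Pool.Agent.K3h19.MT.S_TOW := by
  intro m hm hs
  refine (Pool.Agent.K3h91.ST.t_INF m hm hs).mono ?_
  rintro D ⟨-, -, l, hl, hlp, hT⟩
  refine ⟨Set.range l, Set.infinite_range_of_injective hl, ?_, fun S hS => ?_⟩
  · rintro _ ⟨j, rfl⟩
    exact ⟨(hlp j).1, (hlp j).2.1⟩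
  · have e : ∏ j ∈ S.preimage l hl.injOn, ((l j : ℤ) : OO) = ∏ x ∈ S, ((x : ℤ) : OO) :=
      Finset.prod_preimage l S hl.injOn (fun x => ((x : ℤ) : OO)) fun x hx hx' =>
        absurd (hS (Finset.mem_coe.2 hx)) hx'
    have h := hT (S.preimage l hl.injOn)
    rw [e] at h
    exact h

end Pool.Agent.K3h91.MT
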